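import Pool.Agent.Y294.TB2.Stm

/-!
From the charts to the theorem on negligible sets (project TB2, adapted from Y288.TB.Glob).
-/

set_option autoImplicit false

open MeasureTheory Set Filter Topology
open scoped InnerProductSpace
open Pool.Agent.H721R2.Quart Pool.Agent.H721R2.Ivrii

namespace Pool.Agent.Y568.TB2

open Pool.Agent.TH746 Pool.Agent.TH746.AL Pool.Agent.TH746.UM MvPolynomial H450Al H450Sp
open Pool.Agent.Y294.TB Pool.Agent.Y294.TB2

variable {m : ℕ}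

/-- a countable field over which the algebraic pieces of the boundary and the symmetry are
defined -/
theorem exists_field' (Ω : Set (EE m)) (g : EE m ≃ᵃⁱ[ℝ] EE m) :
    ∃ k : Subfield ℝ, Countable k ∧ (∀ j, (g 0).ofLp j ∈ k) ∧
      (∀ i j, (g.linearIsometryEquiv (EuclideanSpace.single i 1)).ofLp j ∈ k) ∧
      ∀ q, AlgAt Ω q → ∃ (B : Set (EE m)) (P : MvPolynomial (Fin (m + 2)) k), IsOpen B ∧ q ∈ B ∧
        NC2 (map (algebraMap k ℝ) P) ∧ ∀ y ∈ B, y ∈ frontier Ω → aeval y.ofLp P = 0 := by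
  classical
  set 𝓑 := TopologicalSpace.countableBasis (EE m) with h𝓑
  have hcount : Countable {B : Set (EE m) // B ∈ 𝓑 ∧ ∃ P, Fit Ω P B} := by
    have h1 : Countable 𝓑 := (TopologicalSpace.countable_countableBasis (EE m)).to_subtype
    exact Function.Injective.countable (f := fun B : {B : Set (EE m) // B ∈ 𝓑 ∧ ∃ P, Fit Ω P B} =>
      (⟨B.1, B.2.1⟩ : 𝓑)) (fun a b hab => Subtype.ext (congrArg (fun z : 𝓑 => z.1) hab))
  set ι := {B : Set (EE m) // B ∈ 𝓑 ∧ ∃ P, Fit Ω P B} with hι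
  set PR : ι → MvPolynomial (Fin (m + 2)) ℝ := fun B => B.2.2.choose with hPR
  have hPf : ∀ B : ι, Fit Ω (PR B) B.1 := fun B => B.2.2.choose_spec
  have hopen : ∀ B : ι, IsOpen B.1 := fun B =>
    (TopologicalSpace.isBasis_countableBasis (EE m)).isOpen B.2.1
  -- the field of constants
  set C : Set ℝ := (⋃ B : ι, ((PR B).coeffs : Set ℝ)) ∪ (range (fun j => (g 0).ofLp j) ∪
    range (fun z : Fin (m + 2) × Fin (m + 2) =>
      (g.linearIsometryEquiv (EuclideanSpace.single z.1 1)).ofLp z.2)) with hC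
  have hCc : C.Countable := (countable_iUnion fun B => (PR B).coeffs.countable_toSet).union
    ((countable_range _).union (countable_range _))
  set k : Subfield ℝ := Subfield.closure C with hk
  have hkc : Countable k := by
    have h1 := Subfield.cardinalMk_closure_le_max C
    rw [← Cardinal.mk_le_aleph0_iff]
    refine h1.trans ?_
    rw [max_eq_right]
    exact Cardinal.mk_le_aleph0_iff.2 hCc.to_subtype
  have hdesc : ∀ B : ι, ∃ P : MvPolynomial (Fin (m + 2)) k, map (algebraMap k ℝ) P = PR B := by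
    intro B
    have h1 : PR B ∈ Set.range (map (algebraMap k ℝ) :
        MvPolynomial (Fin (m + 2)) k →+* MvPolynomial (Fin (m + 2)) ℝ) := by
      have h2 := (MvPolynomial.mem_range_map_iff_coeffs_subset (f := algebraMap k ℝ)
        (x := PR B)).2 (by
          intro a ha
          have h3 : a ∈ k := Subfield.subset_closure (Or.inl (mem_iUnion.2 ⟨B, ha⟩))
          exact ⟨⟨a, h3⟩, rfl⟩)
      exact h2
    exact h1
  choose P hPmap using hdesc
  refine ⟨k, hkc, fun j => Subfield.subset_closure (Or.inr (Or.inl ⟨j, rfl⟩)),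
    fun i j => Subfield.subset_closure (Or.inr (Or.inr ⟨(i, j), rfl⟩)), ?_⟩
  rintro q ⟨Q, hQ1, hQ2⟩
  obtain ⟨B, hB, hxB, hsub⟩ :=
    (TopologicalSpace.isBasis_countableBasis (EE m)).mem_nhds_iff.1 hQ2
  obtain ⟨B', hB'⟩ : ∃ B' : ι, B'.1 = B := ⟨⟨B, hB, Q, hQ1, fun y hy => hsub hy⟩, rfl⟩
  refine ⟨B'.1, P B', hopen B', by rw [hB']; exact hxB, ?_, ?_⟩
  · rw [hPmap]
    exact (hPf B').1
  · intro y hy hfy
    have h1 := (hPf B').2 y hy hfy
    rw [← hPmap, eval_map_aeval] at h1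
    exact h1

/-- the bounce points of an orbit are on the boundary -/
theorem mem_fr {Ω : Set (EE m)} {g : EE m ≃ᵃⁱ[ℝ] EE m} {n : ℕ} {p u : ℕ → EE m}
    (h : OrbitMod Ω g n p u) {i : ℕ} (hi : 1 ≤ i) : p i ∈ frontier Ω := by
  obtain ⟨k, rfl⟩ : ∃ k, i = k + 1 := ⟨i - 1, by omega⟩
  obtain ⟨t, -, -, -, F, hF, -, -⟩ := h.step k
  exact ldef_frontier hF

/-- The phase points after `l` bounces of the periodic orbits (modulo `g`), the bounces `1, ..., n - 1`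
of which, with the exception of `j`, are at noncircular algebraic points, the bounces
`1, ..., j - 1` being at points of zero curvature. -/
def Tb (Ω : Set (EE m)) (g : EE m ≃ᵃⁱ[ℝ] EE m) (n j l : ℕ) : Set (EE m × EE m) :=
  (fun w : (ℕ → EE m) × (ℕ → EE m) => (w.1 l, w.2 l)) ''
    {w | OrbitMod Ω g n w.1 w.2 ∧ (∀ k, 1 ≤ k → k < n → k ≠ j → AlgAt Ω (w.1 k)) ∧
      ∀ k, 1 ≤ k → k < j → ZeroCurv Ω (w.1 k)}

theorem tb_null (h1 : S2_CHART) (h2 : S2_LOCAL) {Ω : Set (EE m)} {g : EE m ≃ᵃⁱ[ℝ] EE m}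
    (hg : g ⁻¹' Ω = Ω) {n j l : ℕ} (hl : l ≤ n) (hj : 1 ≤ j) (hjn : j < n) :
    μH[((2 * m + 2 : ℕ) : ℝ)] (Tb Ω g n j l) = 0 := by
  classical
  obtain ⟨k, hkc, k1, k2, k3⟩ := exists_field' Ω g
  apply null_of_locally_null
  rintro ⟨p, u⟩ ⟨hor, hal, -⟩
  obtain ⟨a, b, C, ha, hb, hCN, hCg, hsp, hCD, hT, hL, hev⟩ := h1 m Ω g n p u hg hor
  have hfa : Module.finrank ℝ ((ℝ ∙ a)ᗮ : Submodule ℝ (EE m)) = m + 1 := by
    have h1 := Submodule.finrank_add_finrank_orthogonal (ℝ ∙ a)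
    rw [finrank_span_singleton ha, finrank_euclideanSpace_fin] at h1
    omega
  have hfb : Module.finrank ℝ ((ℝ ∙ b)ᗮ : Submodule ℝ (EE m)) = m + 1 := by
    have h1 := Submodule.finrank_add_finrank_orthogonal (ℝ ∙ b)
    rw [finrank_span_singleton hb, finrank_euclideanSpace_fin] at h1
    omega
  have hfr : Module.finrank ℝ ((ℝ ∙ a)ᗮ × (ℝ ∙ b)ᗮ) = 2 * m + 2 := by
    rw [Module.finrank_prod, hfa, hfb]
    ring
  obtain ⟨c, T, hc, hT1, hT2⟩ := hT j hjn.le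
  have hfc : Module.finrank ℝ ((ℝ ∙ c)ᗮ : Submodule ℝ (EE m)) = m + 1 := by
    have h1 := Submodule.finrank_add_finrank_orthogonal (ℝ ∙ c)
    rw [finrank_span_singleton hc, finrank_euclideanSpace_fin] at h1
    omega
  have hbox : ∀ i, ∃ (B : Set (EE m)) (P : MvPolynomial (Fin (m + 2)) k), 1 ≤ i → i < n → i ≠ j →
      IsOpen B ∧ p i ∈ B ∧ NC2 (map (algebraMap k ℝ) P) ∧
        ∀ y ∈ B, y ∈ frontier Ω → aeval y.ofLp P = 0 := by
    intro i
    by_cases hi : 1 ≤ i ∧ i < n ∧ i ≠ j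
    · obtain ⟨B, P, hB⟩ := k3 (p i) (hal i hi.1 hi.2.1 hi.2.2)
      exact ⟨B, P, fun _ _ _ => hB⟩
    · exact ⟨∅, 0, fun a b c => absurd ⟨a, b, c⟩ hi⟩
  choose B P hBP using hbox
  obtain ⟨A, hA⟩ : ∃ A, A = {z : (ℝ ∙ a)ᗮ × (ℝ ∙ b)ᗮ | z ∈ C.U ∧
      C.x C.N z = C.g (C.x 0 z) ∧ C.e C.N z = C.G (C.e 0 z) ∧
      C.n C.N z = C.G (C.n 0 z) ∧
      (∀ i, 1 ≤ i → i < C.N → i ≠ j → aeval (C.x i z).ofLp (P i) = 0) ∧
      ∀ i, 1 ≤ i → i < j → C.S i z = 0} := ⟨_, rfl⟩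
  have h0 := h2 m ((ℝ ∙ a)ᗮ : Submodule ℝ (EE m)) ((ℝ ∙ b)ᗮ : Submodule ℝ (EE m))
    ((ℝ ∙ c)ᗮ : Submodule ℝ (EE m)) (μH[(Module.finrank ℝ ((ℝ ∙ a)ᗮ × (ℝ ∙ b)ᗮ) : ℝ)]) C k hkc j P hfb hfc hsp
    (fun z hz i hi => hCD z hz i (by rw [← hCN]; exact hi)) ⟨T, hT1, hT2⟩ hj
    (by rw [hCN]; exact hjn) (by rw [hCg]; exact k1) (by rw [hCg]; exact k2)
    (fun i hi1 hi hij => (hBP i hi1 (by rw [← hCN]; exact hi) hij).2.2.1)
  rw [← hA, hfr] at h0
  obtain ⟨K, hK⟩ := hL l hl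
  refine ⟨(fun z => (C.x l z, C.e l z)) '' A, ?_, ?_⟩
  · have hK' : LipschitzOnWith K (fun z => (C.x l z, C.e l z)) A :=
      hK.mono fun z hz => by rw [hA] at hz; exact hz.1
    have h3 := hK'.hausdorffMeasure_image_le (d := ((2 * m + 2 : ℕ) : ℝ)) (Nat.cast_nonneg _)
    rw [h0, mul_zero] at h3
    exact nonpos_iff_eq_zero.mp h3
  · have hnear : ∀ᶠ w : (ℕ → EE m) × (ℕ → EE m) in 𝓝 (p, u),
        ∀ i ∈ {i : ℕ | i < n}, 1 ≤ i → i ≠ j → w.1 i ∈ B i := by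
      rw [Filter.eventually_all_finite (Set.finite_lt_nat n)]
      intro i hi
      by_cases hc : 1 ≤ i ∧ i ≠ j
      · obtain ⟨hB, hpB, -, -⟩ := hBP i hc.1 hi hc.2
        have hcont : Continuous fun w : (ℕ → EE m) × (ℕ → EE m) => w.1 i :=
          (continuous_apply i).comp continuous_fst
        filter_upwards [hcont.continuousAt.eventually_mem (hB.mem_nhds hpB)] with w hw _ _
        exact hw
      · exact Eventually.of_forall fun w a b => absurd ⟨a, b⟩ hc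
    filter_upwards [hev, hnear] with w hw hwB hor'
    obtain ⟨z, hzU, hz, hzn, hzc⟩ := hw hor'.1
    refine ⟨z, ?_, ?_⟩
    · rw [hA]
      have hx0 := (hz 0 (Nat.zero_le _)).1
      have he0 := (hz 0 (Nat.zero_le _)).2
      have hxn := (hz n le_rfl).1
      have hen := (hz n le_rfl).2
      have hpn := hor'.1.perp 0
      have hun := hor'.1.peru 0
      rw [zero_add] at hpn hun
      refine ⟨hzU, ?_, ?_, hzn, ?_, fun i hi1 hij =>
        hzc i (by omega) (hor'.2.2 i hi1 hij)⟩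
      · rw [hCN, hxn, hx0, hCg]
        exact hpn
      · rw [Chn.G_apply, hCN, hen, he0, hCg]
        exact hun
      · intro i hi1 hi hij
        rw [hCN] at hi
        have hxi := (hz i hi.le).1
        rw [hxi]
        exact (hBP i hi1 hi hij).2.2.2 (w.1 i) (hwB i hi hi1 hij) (mem_fr hor'.1 hi1)
    · have h3 := hz l hl
      exact Prod.ext h3.1 h3.2

theorem glob (h1 : S2_CHART) (h2 : S2_LOCAL) : S2_GLOB := by
  intro d hd
  obtain ⟨m, rfl⟩ : ∃ m, d = m + 2 := ⟨d - 2, by omega⟩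
  intro Ω Γ hΓ hinv
  have e2 : 2 * (m + 2) - 2 = 2 * m + 2 := by omega
  rw [e2]
  refine measure_mono_null (t := ⋃ g ∈ Γ, ⋃ n : ℕ, ⋃ j : ℕ, ⋃ l : ℕ, ⋃ (_ : 1 ≤ j ∧ j < n),
    ⋃ (_ : l ≤ n),
    {z : EE m × EE m | (g z.1, g.linearIsometryEquiv z.2) ∈ Tb Ω g n j l}) ?_ ?_
  · rintro z ⟨g, hgΓ, n, p, u, hor, rfl, a, han, b, hab, hbn, ha, hb⟩
    refine mem_iUnion₂.2 ⟨g, hgΓ, mem_iUnion.2 ⟨n, mem_iUnion.2 ⟨b - a,
      mem_iUnion.2 ⟨n - a, mem_iUnion₂.2 ⟨⟨by omega, by omega⟩, Nat.sub_le _ _, ?_⟩⟩⟩⟩⟩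
    refine ⟨(fun k => p (k + a), fun k => u (k + a)), ⟨OrbitMod.shift' hor a, ?_, ?_⟩, ?_⟩
    · intro k hk1 hk hkj
      exact ha (k + a) (by omega) (by omega) (by omega)
    · intro k hk1 hkj
      exact hb (k + a) (by omega) (by omega)
    · simp only
      have h1 : n - a + a = 0 + n := by omega
      rw [h1, hor.perp, hor.peru]
  · refine (measure_biUnion_null_iff hΓ).2 fun g hg => measure_iUnion_null fun n =>
      measure_iUnion_null fun j => measure_iUnion_null fun l =>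
      measure_iUnion_null fun hj => measure_iUnion_null fun hl => ?_
    exact pull g (2 * m + 2) (Tb Ω g n j l) (tb_null h1 h2 (hinv g hg) hl hj.1 hj.2)

end Pool.Agent.Y568.TB2
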