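import Pool.Agent.Y294.TB2.Stm

set_option autoImplicit false

/-! Job TB2-SEL: selection lemma (inverse function theorem and Fubini), adapted from
`Y86.TB.SelCore`. -/

namespace Pool.Agent.Y568.TB2

open MeasureTheory Set Topology

/-- null sets in a product, by the second sections -/
lemma null_iff {X Y : Type} [MeasurableSpace X] [MeasurableSpace Y] (μ : Measure X) (ν : Measure Y)
    [SFinite μ] [SFinite ν] {E : Set (X × Y)} (hE : MeasurableSet E) :
    μ.prod ν E = 0 ↔ ∀ᵐ r ∂ν, μ {x | (x, r) ∈ E} = 0 := by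
  rw [Measure.prod_apply_symm hE, lintegral_eq_zero_iff (measurable_measure_prodMk_right hE)]
  rfl

/-- a section which meets many lines -/
lemma exists_section {X Y : Type} [MeasurableSpace X] [MeasurableSpace Y] (μ : Measure X)
    (ν : Measure Y) [SFinite μ] [SFinite ν] {E : Set (X × Y)} (hE : MeasurableSet E)
    (h : μ.prod ν E ≠ 0) : ∃ x₀ : X, μ.prod ν {z | z ∈ E ∧ (x₀, z.2) ∈ E} ≠ 0 := by
  by_contra hcon
  push Not at hcon
  have hsec : ∀ x₀ : X, MeasurableSet {z : X × Y | z ∈ E ∧ (x₀, z.2) ∈ E} := fun x₀ =>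
    hE.inter ((measurable_const.prodMk measurable_snd) hE)
  -- the lines which meet `E` in a null set
  have hN : MeasurableSet {r : Y | μ {x | (x, r) ∈ E} ≠ 0} :=
    (measurable_measure_prodMk_right hE) (measurableSet_singleton (0 : ENNReal)).compl
  have hE' : MeasurableSet {z : X × Y | z ∈ E ∧ μ {x | (x, z.2) ∈ E} ≠ 0} :=
    hE.inter (measurable_snd hN)
  have h1 : μ.prod ν {z : X × Y | z ∈ E ∧ μ {x | (x, z.2) ∈ E} ≠ 0} = 0 := by
    rw [Measure.measure_prod_null hE']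
    refine Filter.Eventually.of_forall fun x₀ => ?_
    have h2 := (null_iff μ ν (hsec x₀)).1 (hcon x₀)
    show ν {r | (x₀, r) ∈ E ∧ μ {x | (x, r) ∈ E} ≠ 0} = 0
    refine measure_mono_null ?_ h2
    rintro r ⟨h3, h4⟩ h5
    apply h4
    refine measure_mono_null ?_ h5
    intro x hx
    exact ⟨hx, h3⟩
  rw [null_iff μ ν hE'] at h1
  apply h
  rw [null_iff μ ν hE]
  filter_upwards [h1] with r hr
  by_contra h2
  apply h2
  refine measure_mono_null ?_ hr
  intro x hx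
  exact ⟨hx, h2⟩

section

variable {Z₁ Z₂ W : Type} [NormedAddCommGroup Z₁] [NormedSpace ℝ Z₁] [FiniteDimensional ℝ Z₁]
  [NormedAddCommGroup Z₂] [NormedSpace ℝ Z₂] [FiniteDimensional ℝ Z₂]
  [NormedAddCommGroup W] [NormedSpace ℝ W] [FiniteDimensional ℝ W]

omit [FiniteDimensional ℝ W] in
lemma exists_equiv (e : Z₂ ≃L[ℝ] W) (L : Z₁ × Z₂ →L[ℝ] W)
    (h : ∀ ζ : Z₂, L (0, ζ) = 0 → ζ = 0) : ∃ G : (Z₁ × Z₂) ≃L[ℝ] (Z₁ × Z₂),
      (G : Z₁ × Z₂ →L[ℝ] Z₁ × Z₂) =
        (ContinuousLinearMap.fst ℝ Z₁ Z₂).prod ((e.symm : W →L[ℝ] Z₂).comp L) := by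
  set T : Z₁ × Z₂ →L[ℝ] Z₁ × Z₂ :=
    (ContinuousLinearMap.fst ℝ Z₁ Z₂).prod ((e.symm : W →L[ℝ] Z₂).comp L) with hT
  have hinj : Function.Injective (T : Z₁ × Z₂ →ₗ[ℝ] Z₁ × Z₂) := by
    rw [← LinearMap.ker_eq_bot, LinearMap.ker_eq_bot']
    rintro ⟨a, b⟩ hab
    have h2 : T (a, b) = 0 := hab
    rw [hT, ContinuousLinearMap.prod_apply] at h2
    have h3 : a = 0 := congrArg Prod.fst h2
    have h4 : e.symm (L (a, b)) = 0 := congrArg Prod.snd h2
    have h5 : L (a, b) = 0 := by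
      have := congrArg e h4
      simpa using this
    subst h3
    rw [h b h5]
    rfl
  refine ⟨(LinearEquiv.ofInjectiveEndo (T : Z₁ × Z₂ →ₗ[ℝ] Z₁ × Z₂) hinj).toContinuousLinearEquiv, ?_⟩
  ext x <;> rfl

end

theorem sel : Pool.Agent.Y294.TB2.S2_SEL := by
  intro Z₁ Z₂ W _ _ _ _ _ _ _ _ _ _ _ _ _ μ _ U A β hrk hU hβ hAU hA hμA hd
  have hc1 : CompleteSpace Z₁ := FiniteDimensional.complete ℝ Z₁
  have hc2 : CompleteSpace Z₂ := FiniteDimensional.complete ℝ Z₂
  have hp1 : ProperSpace Z₁ := FiniteDimensional.proper ℝ Z₁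
  have hp2 : ProperSpace Z₂ := FiniteDimensional.proper ℝ Z₂
  have hs1 : SecondCountableTopology Z₁ := inferInstance
  have hs2 : SecondCountableTopology Z₂ := inferInstance
  have hbs : BorelSpace (Z₁ × Z₂) := inferInstance
  have hpol : PolishSpace (Z₁ × Z₂) := inferInstance
  obtain ⟨e⟩ : Nonempty (Z₂ ≃L[ℝ] W) := ⟨ContinuousLinearEquiv.ofFinrankEq hrk⟩
  set G : Z₁ × Z₂ → Z₁ × Z₂ := fun z => (z.1, e.symm (β z)) with hG
  -- derivatives
  have hder : ∀ z ∈ A, ∃ G' : (Z₁ × Z₂) ≃L[ℝ] (Z₁ × Z₂),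
      HasStrictFDerivAt G (G' : Z₁ × Z₂ →L[ℝ] Z₁ × Z₂) z := by
    intro z hz
    obtain ⟨G', hG'⟩ := exists_equiv e (fderiv ℝ β z) (hd z hz)
    refine ⟨G', ?_⟩
    rw [hG']
    have h1 : HasStrictFDerivAt β (fderiv ℝ β z) z := (hβ z (hAU hz)).hasStrictFDerivAt (by norm_num)
    exact hasStrictFDerivAt_fst.prodMk ((e.symm : W →L[ℝ] Z₂).hasStrictFDerivAt.comp z h1)
  -- a good chart
  obtain ⟨f, hfG, hfA⟩ : ∃ f : OpenPartialHomeomorph (Z₁ × Z₂) (Z₁ × Z₂), (f : _ → _) = G ∧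
      μ (A ∩ f.source) ≠ 0 := by
    by_contra hcon
    push Not at hcon
    apply hμA
    refine measure_null_of_locally_null A fun z hz => ?_
    obtain ⟨G', hG'⟩ := hder z hz
    refine ⟨A ∩ (hG'.toOpenPartialHomeomorph G).source, ?_, ?_⟩
    · exact inter_mem_nhdsWithin A ((hG'.toOpenPartialHomeomorph G).open_source.mem_nhds
        hG'.mem_toOpenPartialHomeomorph_source)
    · exact hcon _ hG'.toOpenPartialHomeomorph_coe
  set A₀ : Set (Z₁ × Z₂) := A ∩ f.source with hA₀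
  have hA₀m : MeasurableSet A₀ := hA.inter f.open_source.measurableSet
  set E : Set (Z₁ × Z₂) := f '' A₀ with hE
  have hEm : MeasurableSet E := hA₀m.image_of_continuousOn_injOn
    (f.continuousOn.mono inter_subset_right) (f.injOn.mono inter_subset_right)
  have hEt : E ⊆ f.target := by
    rintro _ ⟨z, hz, rfl⟩
    exact f.map_source hz.2
  have hsymm : DifferentiableOn ℝ f.symm E := by
    rintro _ ⟨z, hz, rfl⟩
    obtain ⟨G', hG'⟩ := hder z hz.1
    have h1 : HasFDerivAt f (G' : Z₁ × Z₂ →L[ℝ] Z₁ × Z₂) (f.symm (f z)) := by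
      rw [f.left_inv hz.2, hfG]
      exact hG'.hasFDerivAt
    exact (f.hasFDerivAt_symm (f.map_source hz.2) h1).differentiableAt.differentiableWithinAt
  have himg : f.symm '' E = A₀ := by
    rw [hE, ← Set.image_comp]
    ext z
    constructor
    · rintro ⟨w, hw, rfl⟩
      show f.symm (f w) ∈ A₀
      rw [f.left_inv hw.2]
      exact hw
    · intro hz
      exact ⟨z, hz, f.left_inv hz.2⟩
  have hμE : μ E ≠ 0 := by
    intro h0
    apply hfA
    rw [← himg]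
    exact addHaar_image_eq_zero_of_differentiableOn_of_addHaar_eq_zero μ hsymm h0
  let μ₁ : Measure Z₁ := Measure.addHaar
  let μ₂ : Measure Z₂ := Measure.addHaar
  have hac1 : μ ≪ μ₁.prod μ₂ := Measure.absolutelyContinuous_isAddHaarMeasure μ (μ₁.prod μ₂)
  have hac2 : μ₁.prod μ₂ ≪ μ := Measure.absolutelyContinuous_isAddHaarMeasure (μ₁.prod μ₂) μ
  have hνE : μ₁.prod μ₂ E ≠ 0 := fun h0 => hμE (hac1 h0)
  obtain ⟨x₀, hx₀⟩ := exists_section μ₁ μ₂ hEm hνE
  set E₁ : Set (Z₁ × Z₂) := {z | z ∈ E ∧ (x₀, z.2) ∈ E} with hE₁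
  have hE₁m : MeasurableSet E₁ := hEm.inter ((measurable_const.prodMk measurable_snd) hEm)
  have hE₁E : E₁ ⊆ E := fun z hz => hz.1
  have hμE₁ : μ E₁ ≠ 0 := fun h0 => hx₀ (hac2 h0)
  have hA₁A : f.symm '' E₁ ⊆ A₀ := by
    rw [← himg]
    exact Set.image_mono hE₁E
  refine ⟨x₀, f.symm '' E₁, hA₁A.trans inter_subset_left, ?_, ?_, ?_⟩
  · exact hE₁m.image_of_continuousOn_injOn
      (f.symm.continuousOn.mono (hE₁E.trans hEt)) (f.symm.injOn.mono (hE₁E.trans hEt))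
  · intro h0
    apply hμE₁
    have h1 : E₁ = G '' (f.symm '' E₁) := by
      rw [← Set.image_comp]
      ext w
      constructor
      · intro hw
        refine ⟨w, hw, ?_⟩
        show G (f.symm w) = w
        rw [← hfG]
        exact f.right_inv (hEt (hE₁E hw))
      · rintro ⟨w', hw', rfl⟩
        show G (f.symm w') ∈ E₁
        rw [← hfG, f.right_inv (hEt (hE₁E hw'))]
        exact hw'
    rw [h1]
    refine addHaar_image_eq_zero_of_differentiableOn_of_addHaar_eq_zero μ (fun z hz => ?_) h0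
    obtain ⟨G', hG'⟩ := hder z (hA₁A hz).1
    exact hG'.hasFDerivAt.differentiableAt.differentiableWithinAt
  · rintro _ ⟨w, hw, rfl⟩
    obtain ⟨z', hz', hzw⟩ := hw.2
    have h1 : G (f.symm w) = w := by
      rw [← hfG]
      exact f.right_inv (hEt hw.1)
    rw [hfG] at hzw
    have h2 : z'.1 = x₀ := congrArg Prod.fst hzw
    have h3 : e.symm (β z') = w.2 := congrArg Prod.snd hzw
    have h4 : e.symm (β (f.symm w)) = w.2 := congrArg Prod.snd h1
    refine ⟨z'.2, ?_, ?_⟩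
    · rw [← h2]
      exact hz'.1
    · rw [← h2]
      exact e.symm.injective (h3.trans h4.symm)

end Pool.Agent.Y568.TB2
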